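import Pool.Agent.Work.MP_223b32_es.Interface

/-!
# FROBC: the eigenvalues (helper94)
-/

namespace Pool.Agent.Work.ES

open Finset Polynomial Module Pool.Agent.Work.MP_223b32_ag Pool.Agent.Work.TC
open Pool.Agent.Work.MP_223b32_ag_56

namespace FROBC

open IntermediateField in
/-- the norm and the constant coefficient -/
theorem norm_eq (F E : Type) [Field F] [Fintype F] [Field E] [Fintype E] [Algebra F E] (x : E) :
    Algebra.norm F x = (-1) ^ finrank F E *
      (minpoly F x ^ (finrank F E / (minpoly F x).natDegree)).coeff 0 := by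
  have hint : IsIntegral F x := Algebra.IsIntegral.isIntegral x
  have hdeg : finrank F F⟮x⟯ = (minpoly F x).natDegree := adjoin.finrank hint
  have hpos : 0 < (minpoly F x).natDegree := minpoly.natDegree_pos hint
  have hmul : finrank F F⟮x⟯ * finrank F⟮x⟯ E = finrank F E := Module.finrank_mul_finrank F F⟮x⟯ E
  have hdiv : finrank F E / (minpoly F x).natDegree = finrank F⟮x⟯ E := by
    rw [← hmul, hdeg, Nat.mul_div_cancel_left _ hpos]
  have hgen : Algebra.norm F (AdjoinSimple.gen F x) =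
      (-1) ^ (minpoly F x).natDegree * (minpoly F x).coeff 0 := by
    have h := Algebra.PowerBasis.norm_gen_eq_coeff_zero_minpoly (adjoin.powerBasis hint)
    rw [adjoin.powerBasis_gen, adjoin.powerBasis_dim, minpoly_gen] at h
    exact h
  rw [Algebra.norm_eq_norm_adjoin, hgen, hdiv, coeff_zero_eq_eval_zero, coeff_zero_eq_eval_zero,
    eval_pow, mul_pow, ← pow_mul]
  congr 2
  rw [← hmul, hdeg]

theorem msumC_zero {F : Type} [Field F] [Fintype F] (χ : F[X] →* ℂ) : msumC χ 0 = 1 := by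
  unfold msumC
  rw [Fintype.sum_unique]
  unfold mon
  simp

end FROBC

open FROBC in
theorem stmt_FROBC (hB0 : Stmt_B0C) (hEP : Stmt_EPC) (hLE : Stmt_LEC) (hNW : Stmt_NWC)
    (hPC : Stmt_PC) : Stmt_FROBC := by
  intro F K _ _ _ _ _ _ _ hF hodd a ha hdeg ψ hψ n hn
  obtain ⟨β, hβ1, hβ2⟩ := hNW n (msumC (XX ψ a)) (lamC (XX ψ a)) (msumC_zero _)
    (fun m hm => hB0 F K hF a ha hdeg ψ hψ m (by omega))
    (fun m hm => hEP F (XX ψ a) m hm)
  refine ⟨β, hβ1, ?_⟩
  intro E _ _ _ _
  have hk : 1 ≤ Module.finrank F E := Module.finrank_pos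
  have hψ1 : ψ (-1) * ψ (-1) = 1 := by
    rw [← map_mul]
    simp
  have key : ∀ x : E, (quadraticChar E (aeval x (minpoly F a)) : ℂ) * ψ (Algebra.norm F x) =
      ((quadraticChar F (-1) : ℂ) * ψ (-1)) ^ Module.finrank F E *
        XX ψ a (minpoly F x ^ (Module.finrank F E / (minpoly F x).natDegree)) := by
    intro x
    have h1 : ∀ (r : ℕ) (c : F), ψ ((-1) ^ r * c) = ψ (-1) ^ r * ψ c := by
      intro r c
      rw [map_mul, map_pow]
    have h2 : ∀ h : F[X], XX ψ a h = (quadraticChar K (aeval a h) : ℂ) * ψ (h.coeff 0) :=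
      fun _ => rfl
    rw [hPC F K E hF hodd a hdeg x, norm_eq F E x, h1, h2]
    push_cast
    rw [mul_pow]
    ring
  rw [sum_congr rfl fun x _ => key x, ← mul_sum, hLE F E (XX ψ a), hβ2 _ hk, mul_neg, mul_sum]
  congr 1
  refine sum_congr rfl fun i _ => ?_
  rw [← mul_pow]

end Pool.Agent.Work.ES
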